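import Pool.Agent.helper92.RC.Spec

set_option autoImplicit false

namespace Pool.Agent.helper92.RC

open scoped commutatorElement

universe u

/-- a piece with bounded ordinals -/
def QPI_piece (G : Type u) [Group G] (p : Piece (fun X hX => @Cl X hX) G) (β : p.L → Ordinal.{u})
    (hβ : ∀ l, Q (β l) (p.X l) (p.gX l)) (α : Ordinal.{u}) (hα : ∀ l, β l < α) :
    Piece (fun X hX => ∃ β : Set.Iio α, Q β.1 X hX) G where
  L := p.L
  X := p.X
  gX := p.gX
  hX := fun l => ⟨⟨β l, hα l⟩, hβ l⟩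
  M := p.M
  hM := p.hM
  θ := p.θ
  hθ := p.hθ

theorem QPI : QPI_stmt.{u} := by
  intro G _ h
  choose p q x y hxy using h
  have hp : ∀ (g : G) (l : (p g).L), ∃ β : Ordinal.{u}, Q β ((p g).X l) ((p g).gX l) :=
    fun g l => (p g).hX l
  have hq : ∀ (g : G) (l : (q g).L), ∃ β : Ordinal.{u}, Q β ((q g).X l) ((q g).gX l) :=
    fun g l => (q g).hX l
  choose β hβ using hp
  choose γ hγ using hq
  let A : (Σ g, (p g).L) → Ordinal.{u} := fun i => β i.1 i.2
  let B : (Σ g, (q g).L) → Ordinal.{u} := fun i => γ i.1 i.2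
  let α : Ordinal.{u} := Order.succ (max (⨆ i, A i) (⨆ i, B i))
  have hA : ∀ g l, β g l < α := fun g l =>
    Order.lt_succ_iff.2 ((Ordinal.le_iSup A ⟨g, l⟩).trans (le_max_left _ _))
  have hB : ∀ g l, γ g l < α := fun g l =>
    Order.lt_succ_iff.2 ((Ordinal.le_iSup B ⟨g, l⟩).trans (le_max_right _ _))
  refine ⟨α, (Q_iff α G _).2 (Or.inr fun g => ?_)⟩
  exact ⟨QPI_piece G (p g) (β g) (hβ g) α (hA g), QPI_piece G (q g) (γ g) (hγ g) α (hB g),
    x g, y g, hxy g⟩

end Pool.Agent.helper92.RC
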