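import Pool.Agent.helper92.RC.Spec

set_option autoImplicit false

namespace Pool.Agent.helper92.RC

open scoped commutatorElement

universe u

theorem TOW_cons {G : Type u} [Group G] (g b : ℕ → G)
    (h : Solv (fun k => g (k + 1)) (fun k => b (k + 1))) : Solv g b := by
  intro ε
  obtain ⟨z, hz⟩ := h (fun k => ε (k + 1))
  refine ⟨fun n => Nat.casesOn n ((if ε 0 then g 0 else 1) * ⁅b 0, z 0⁆) (fun m => z m), ?_⟩
  intro k
  cases k with
  | zero => rfl
  | succ k => exact hz k

theorem TOW_pi {I : Type u} {G : I → Type u} [∀ i, Group (G i)] (g b : ℕ → ∀ i, G i)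
    (h : ∀ i, Solv (fun k => g k i) (fun k => b k i)) : Solv g b := by
  intro ε
  choose z hz using fun i => h i ε
  refine ⟨fun k i => z i k, ?_⟩
  intro k
  funext i
  rw [Pi.mul_apply]
  have h1 := hz i k
  have h2 : (if ε k = true then g k else 1) i = if ε k = true then g k i else 1 := by
    split_ifs <;> rfl
  rw [h2]
  exact h1

/-- transport to the first state -/
def TOW_up {F : Type u} [Group F] (S : ℕ → St F)
    (φ : ∀ n, (S (n + 1)).C (S (n + 1)).d →* (S n).C (S n).d) (x : ∀ n, (S n).C (S n).d) :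
    ℕ → ∀ n, (S n).C (S n).d
  | 0 => x
  | k + 1 => fun n => φ n (TOW_up S φ x k (n + 1))

theorem TOW_val {F : Type u} [Group F] (S : ℕ → St F)
    (φ : ∀ n, (S (n + 1)).C (S (n + 1)).d →* (S n).C (S n).d)
    (hφ : ∀ n, (S (n + 1)).f = (S n).f.comp (φ n)) (x : ∀ n, (S n).C (S n).d) (v : ℕ → F)
    (hv : ∀ m, (S m).f (x m) = v m) (k : ℕ) :
    ∀ n, (S n).f (TOW_up S φ x k n) = v (n + k) := by
  induction k with
  | zero => intro n; exact hv n
  | succ k ih =>
    intro n
    have h1 : (S n).f (TOW_up S φ x (k + 1) n) = (S (n + 1)).f (TOW_up S φ x k (n + 1)) := by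
      rw [hφ n]
      rfl
    rw [h1, ih (n + 1)]
    congr 1
    omega

theorem TOW : STA_stmt.{u} → FB_stmt.{u} → KEY_stmt.{u} → TOW_stmt.{u} := by
  intro hSTA hFB hKEY F _ _ _ S₀
  obtain ⟨S, hS⟩ : ∃ S : ℕ → St F, ∀ n, Stp (S n) (S (n + 1)) :=
    ⟨fun n => Nat.rec S₀ (fun _ T => Classical.choose (hSTA F T)) n,
      fun n => Classical.choose_spec (hSTA F (Nat.rec S₀ (fun _ T => Classical.choose (hSTA F T)) n))⟩
  choose φ hφf hφN hφT using hS
  choose β a hgood using fun n => hFB F (S n).f.range (S n).hf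
  have hβ : ∀ n, ∃ y, (S n).f y = β n := fun n => (hgood n).1
  have ha : ∀ n, ∃ y, (S n).f y = a n := fun n => by
    have h1 := (hgood n).2.1
    have h2 : ⁅(S n).f.range, (S n).f.range⁆ ≤ (S n).f.range := by
      rw [Subgroup.commutator_le]
      intro x hx y hy
      rw [commutatorElement_def]
      exact Subgroup.mul_mem _ (Subgroup.mul_mem _ (Subgroup.mul_mem _ hx hy)
        (Subgroup.inv_mem _ hx)) (Subgroup.inv_mem _ hy)
    exact h2 h1
  choose b hb using hβ
  choose g hg using ha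
  -- solutions in all coordinates
  have hsolv : ∀ (o : Ordinal.{u}) (n : ℕ) (i : (S n).I), (S n).al i = o →
      @Solv ((S n).G i) ((S n).gG i) (fun k => (TOW_up S φ g k n : ∀ j, (S n).G j) i)
        (fun k => (TOW_up S φ b k n : ∀ j, (S n).G j) i) := by
    intro o
    induction o using WellFoundedLT.induction with
    | ind o ih =>
      intro n i hi
      have h1 := hφT n i (fun k => TOW_up S φ g k (n + 1)) (fun k => TOW_up S φ b k (n + 1))
        (fun i' hi' => ih _ (by rw [← hi]; exact hi') (n + 1) i' rfl)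
      exact @TOW_cons ((S n).G i) ((S n).gG i) (fun k => (TOW_up S φ g k n : ∀ j, (S n).G j) i)
        (fun k => (TOW_up S φ b k n : ∀ j, (S n).G j) i) h1
  refine hKEY F (∀ i, (S 0).G i) (S 0).C (S 0).d (S 0).hC (S 0).f (fun k => TOW_up S φ g k 0)
    (fun k => TOW_up S φ b k 0) (fun n => (S n).f.range) le_rfl ?_ ?_ ?_
  · intro k
    constructor
    · rintro x ⟨y, rfl⟩
      refine ⟨φ k y, ?_⟩
      rw [hφf k]
      rfl
    · rintro x ⟨y, rfl⟩ w ⟨t, rfl⟩
      obtain ⟨y', hy'⟩ := (hφN k).conj_mem (φ k y) ⟨y, rfl⟩ t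
      refine ⟨y', ?_⟩
      have h1 : (S (k + 1)).f y' = (S k).f (φ k y') := by
        rw [hφf k]
        rfl
      have h2 : (S (k + 1)).f y = (S k).f (φ k y) := by
        rw [hφf k]
        rfl
      rw [h1, hy', h2, map_mul, map_mul, map_inv]
  · intro k
    have h1 := TOW_val S φ hφf b β hb k 0
    have h2 := TOW_val S φ hφf g a hg k 0
    rw [Nat.zero_add] at h1 h2
    show Good (S k).f.range ((S 0).f (TOW_up S φ b k 0)) ((S 0).f (TOW_up S φ g k 0))
    rw [h1, h2]
    exact hgood k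
  · exact TOW_pi _ _ (fun i => hsolv _ 0 i rfl)

end Pool.Agent.helper92.RC
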